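import Pool.Agent.K7.H38.KN.Main

set_option autoImplicit false

/-!
# Kanenobu knots, and closed chains `T₁ w T₂ w⁻¹` of two tangles on three strands

Let `w` be a braid on three strands, a product of powers of `σ₁` and `σ₂`, and let `T₁`, `T₂` be
tangles between the strands 1 and 2: a rational tangle `p / q` with `p ≠ 0` (`σ₁ ^ (p / q)`; every
sign and size, and `1 / 0`), or an alternating tangle diagram of positive or of negative sign. Let `L`
be the closure of `T₁ w T₂ w⁻¹`.

`ChainGrp (doubled T₁ w T₂)` is the fundamental group of the double branched cover of `L`. It is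
generated by the regions `A i` between the strands 2 and 3, the regions `B i` between the strands 1
and 2 (the inner region and the outer region are equal to `1`), and by the fundamental groups of the
double branched covers of the tangles. For instance `σ₁ ^ n` takes `(A, B)` to `(A, B A⁻ⁿ)`, `σ₂ ^ n`
takes `(A, B)` to `(A Bⁿ, B)`, and `σ₁ ^ (p / q)` takes `(A, B)` to `(A, B t⁻ᵖ)` where `A = t ^ q`.

The integer `cross w` is an entry of the matrix of `w`. It is zero if and only if `w` fixes the curve
around the strands 1, 2; then `L` is a split link.

The theorem: if `cross w ≠ 0` then every homomorphism from the fundamental group to a left-orderable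
group is trivial; in particular this group is not left-orderable.

If both tangles are rational, these are all Dehn fillings, except those along the slopes that give
infinite first homology, of the double branched cover of the exterior of the two balls, a manifold
with two boundary tori. If `T₁ = 1 / p` and `T₂ = 1 / q` then `L` is a symmetric union of a two-bridge
link and its mirror image, with `p` and `q` crossings on the axis. For `w = σ₂² σ₁⁻¹ σ₂` these are
Kanenobu's knots `K(p, q)` (partial knot `4₁`). If `T₁`, `T₂` are integral then `L` is a closed
three-braid.

Idea of the proof. The braid group acts on the pairs of elements of a group, and every braid has a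
normal form `σ₁ ^ i p σ₁ ^ j Δ ^ (2 k)`, where `p` is a product of factors `σ₁⁻¹` and `σ₂`; this
reduces the statement to the case `w = p`. Let the group act by order automorphisms on a complete linear order.
The two states `(m, g)` and `(m, g v)` before `w` are taken to `(l, a)` and `(l, a u)`, where all
entries are positive words in `m` and `g`, and `g` and `m⁻¹` are positive words in `a` and `l⁻¹`. If `u`
moves all points down (up) this is impossible. So `u` has a fixed point `z`; then `l z = z`. Suppose
that `z < a z`. Then for every proper suffix `s` of the word `a` the elements `m⁻¹ s` and `s⁻¹ m⁻¹` are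
positive words in `a` and `l⁻¹`, so `s z` lies between `m z` and `m⁻¹ z`, where `v` moves all points in
the same direction; so `a u z ≠ a z`, a contradiction. Hence `a z = z`, and `z` is a global fixed
point.
-/

namespace Pool.Agent.Results.MP_3d425c_gt.KanenobuKnots

open Pool.Agent.Y479.LS Pool.Agent.K7.H39.TB Pool.Agent.K7.H38.KN

/-- **Closed chains `T₁ w T₂ w⁻¹`.** -/
theorem result (T₁ T₂ : STang) (h₁ : T₁.Proper) (h₂ : T₂.Proper) (w : List (Bool × ℤ))
    (hw : cross w ≠ 0) :
    (∀ (H : Type) [Group H], LeftOrderable H → ∀ (f : ChainGrp (doubled T₁ w T₂) →* H)
      (γ : ChainGrp (doubled T₁ w T₂)), f γ = 1) ∧ ¬ LeftOrderable (ChainGrp (doubled T₁ w T₂)) :=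
  ⟨noLO h₁ h₂ hw, (noLO h₁ h₂ hw).not_leftOrderable⟩

/-- Kanenobu's knots `K(p, q)`: the braid is `σ₂² σ₁⁻¹ σ₂`. -/
theorem kanenobu (p q : ℤ) :
    ¬ LeftOrderable (ChainGrp (doubled (.rat 1 p) [(false, 2), (true, -1), (false, 1)] (.rat 1 q))) :=
  (result (.rat 1 p) (.rat 1 q) (show (1 : ℤ) ≠ 0 by decide) (show (1 : ℤ) ≠ 0 by decide) _
    (by decide)).2

end Pool.Agent.Results.MP_3d425c_gt.KanenobuKnots
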