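import Pool.Agent.K7.H31.SA.Closing

set_option autoImplicit false

/-!
# Threefold cyclic branched covers of special alternating arborescent links

A plane bipartite graph is the Seifert graph of a special alternating link diagram: the link is
the boundary of the surface with a disk for each vertex and a half-twisted band for each edge, all
bands twisted in the same direction.  The regions of the diagram are the vertices and the faces of
the graph, its crossings are the edges.  For a large class of series-parallel graphs we show that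
the fundamental group of the threefold cyclic branched cover of the link has no nontrivial
homomorphism to a left-orderable group.  The class contains all 2-connected series-parallel plane
bipartite graphs with at most three edges at each vertex, and many others without any bound on the
number of edges at a vertex.

Idea.  Let `G` be the quotient of the link group by the cubes of the meridians.  A homomorphism
from the group of the cover to a left-ordered group gives a total preorder on `G`, such that right
multiplication preserves the order of elements of the same degree (modulo 3).  For the four outer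
regions of a network we look for statements about this preorder, of bounded length, that are
preserved by series and parallel compositions: there are four kinds of networks, with 10 basic
rules, `BE`, `BA`, `BB`, `BC` in `Pool.Agent.K7.H31.SA.Rules`.  That the rules are preserved
(`NF.ser`, `NF.par`) and that they imply that the faces of a closed network act trivially
(`ring_EE`, …, `ring_A5`) are finite problems; their proofs in `OpsE1`, `OpsE2`, `OpsO`, `OpsP`
and `Close` were found by a computer search.  It follows that all regions act like powers of one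
meridian, whose cube is trivial.
-/

namespace Pool.Agent.Results.MP_3d425c_gt.ThreefoldArborescentCovers

open Pool.Agent.K7.H31.SA

/-- A nontrivial group is left-orderable if it carries a strict total order that is invariant
under left multiplication. -/
def LeftOrderable (G : Type*) [Group G] : Prop :=
  Nontrivial G ∧ ∃ lt : G → G → Prop, IsStrictTotalOrder G lt ∧
    ∀ a b c : G, lt a b ↔ lt (c * a) (c * b)

/-- Plane networks with two terminals, glued from edges in series and in parallel. -/
inductive Net
  | edge : Net
  | ser : Net → Net → Net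
  | par : Net → Net → Net

/-- A crossing, seen as an edge of the plane graph: the two vertices at its ends and the faces on
its left and right, on the way from `near` to `far`. -/
structure Crossing (R : Type) where
  near : R
  left : R
  far : R
  right : R

namespace Net

/-- The regions of a network, except for its terminals and the outer faces.  `none` is the middle
vertex of `ser A B` and the face between `A` and `B` of `par A B`. -/
def Inner : Net → Type
  | .edge => Empty
  | .ser A B => Option (A.Inner ⊕ B.Inner)
  | .par A B => Option (A.Inner ⊕ B.Inner)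

/-- The edges of a network with terminals `P` (near) and `Q` (far), outer faces `f` (left, on the
way from `P` to `Q`) and `g` (right), and other regions `x`.  In `ser A B` the network `A` joins
`P` to the middle vertex, in `par A B` the network `A` is on the left. -/
def crossings {R : Type} : (A : Net) → (P Q f g : R) → (A.Inner → R) → Set (Crossing R)
  | .edge, P, Q, f, g, _ => {⟨P, f, Q, g⟩}
  | .ser A B, P, Q, f, g, x =>
      A.crossings P (x none) f g (fun r => x (some (.inl r))) ∪
      B.crossings (x none) Q f g (fun r => x (some (.inr r)))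
  | .par A B, P, Q, f, g, x =>
      A.crossings P Q f (x none) (fun r => x (some (.inl r))) ∪
      B.crossings P Q (x none) g (fun r => x (some (.inr r)))

/-- The parity of the lengths of the paths from one terminal to the other (if the network is
bipartite). -/
def odd : Net → Bool
  | .edge => true
  | .ser A B => xor A.odd B.odd
  | .par A _ => A.odd

/-- `s` or `-s`. -/
def turn (b : Bool) (s : ℤ) : ℤ := if b then -s else s

/-- The colours of the other regions: `1` or `-1` for vertices and `0` for faces, if the near
terminal has colour `s`. -/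
def colour : (A : Net) → ℤ → A.Inner → ℤ
  | .edge, _, r => r.elim
  | .ser A _, s, none => turn A.odd s
  | .ser A _, s, some (.inl r) => A.colour s r
  | .ser A B, s, some (.inr r) => B.colour (turn A.odd s) r
  | .par _ _, _, none => 0
  | .par A _, s, some (.inl r) => A.colour s r
  | .par _ B, s, some (.inr r) => B.colour s r

/-- The kinds of networks: an edge has kind `one`; for series and parallel compositions see `Ser`
and `Par`. -/
inductive HasKind : Net → Kind → Prop
  | edge : HasKind .edge .one
  | ser {A B : Net} {i j k : Kind} (h : Ser i j k) (hA : HasKind A i) (hB : HasKind B j) :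
      HasKind (.ser A B) k
  | par {A B : Net} {i j k : Kind} (h : Par i j k) (hA : HasKind A i) (hB : HasKind B j) :
      HasKind (.par A B) k

/-- The number of edges at the near terminal. -/
def nearDeg : Net → ℕ
  | .edge => 1
  | .ser A _ => A.nearDeg
  | .par A B => A.nearDeg + B.nearDeg

/-- The number of edges at the far terminal. -/
def farDeg : Net → ℕ
  | .edge => 1
  | .ser _ B => B.farDeg
  | .par A B => A.farDeg + B.farDeg

/-- Bipartite networks in which all vertices, except for the terminals, have at most three edges;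
series compositions are bracketed to the right, `ser A (ser B C)`. -/
def Cubic : Net → Prop
  | .edge => True
  | .ser A B => A.Cubic ∧ B.Cubic ∧ A.farDeg + B.nearDeg ≤ 3 ∧ ∀ C D, A ≠ .ser C D
  | .par A B => A.Cubic ∧ B.Cubic ∧ A.odd = B.odd

end Net

section closed
variable {m : ℕ} (N : Fin (m + 1) → Net)

/-- The regions (vertices and faces) of the plane graph that consists of the networks
`N 0, …, N m`, all between the same two vertices `P`, `Q`, in the cyclic order around `P`. -/
abbrev Region : Type := (Bool ⊕ Fin (m + 1)) ⊕ Σ i, (N i).Inner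

/-- The vertex `P`. -/
def vP : Region N := .inl (.inl false)

/-- The vertex `Q`. -/
def vQ : Region N := .inl (.inl true)

/-- The face on the left of `N i`; the face on its right is `face N (i + 1)`. -/
def face (i : Fin (m + 1)) : Region N := .inl (.inr i)

/-- The other regions. -/
def inner (i : Fin (m + 1)) (r : (N i).Inner) : Region N := .inr ⟨i, r⟩

/-- All edges of the plane graph. -/
def crossings : Set (Crossing (Region N)) :=
  {c | ∃ i, c ∈ (N i).crossings (vP N) (vQ N) (face N i) (face N (i + 1)) (inner N i)}

/-- The colours: `1` or `-1` for vertices and `0` for faces. -/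
def colour : Region N → ℤ
  | .inl (.inl false) => 1
  | .inl (.inl true) => Net.turn (N 0).odd 1
  | .inl (.inr _) => 0
  | .inr ⟨i, r⟩ => (N i).colour 1 r

/-- The relators of the Dehn presentation: one generator for each region, one relator for each
crossing, and the generator of the face `0`. -/
def relators : Set (FreeGroup (Region N)) :=
  {w | ∃ c ∈ crossings N, w = .of c.near * (.of c.left)⁻¹ * .of c.far * (.of c.right)⁻¹} ∪
  {.of (face N 0)}

/-- The group of the alternating link. -/
abbrev LinkGroup : Type := PresentedGroup (relators N)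

/-- The cubes of the meridians: every arc of the link separates a vertex and a face. -/
def cubes : Set (FreeGroup (Region N)) :=
  {w | ∃ c ∈ crossings N, ∃ v f, (v = c.near ∨ v = c.far) ∧ (f = c.left ∨ f = c.right) ∧
    w = (.of v * (.of f)⁻¹) ^ 3}

/-- The quotient of the link group by the cubes of the meridians. -/
abbrev OrbifoldGroup : Type := PresentedGroup (relators N ∪ cubes N)

/-- The homomorphism `δ` of the orbifold group to `Z/3` that maps the generators to their colours
exists, and its kernel, the fundamental group of the threefold cyclic branched cover, has no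
nontrivial homomorphism to a left-orderable group and is not left-orderable. -/
def NoOrders : Prop :=
  ∃ δ : OrbifoldGroup N →* Multiplicative (ZMod 3),
    (∀ r, δ (PresentedGroup.of r) = Multiplicative.ofAdd ((colour N r : ℤ) : ZMod 3)) ∧
    ¬ LeftOrderable δ.ker ∧
    ∀ (H : Type) [Group H], LeftOrderable H → ∀ φ : δ.ker →* H, ∀ g, φ g = 1

end closed

/-- The possible kinds of `N 0, …, N m`. -/
inductive Closing : (m : ℕ) → (Fin (m + 1) → Kind) → Prop
  | even : Closing 1 ![.even, .even]
  | one : Closing 1 ![.one, .one]
  | two : Closing 1 ![.one, .two]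
  | three : Closing 1 ![.one, .three]
  | five : Closing 4 ![.one, .one, .one, .one, .one]

/-! ### Networks with at most three edges at each vertex -/

namespace Net

theorem nearDeg_pos (A : Net) : 1 ≤ A.nearDeg := by
  induction A with
  | edge => exact le_rfl
  | ser A B ihA ihB => exact ihA
  | par A B ihA ihB => exact ihA.trans (Nat.le_add_right _ _)

theorem farDeg_pos (A : Net) : 1 ≤ A.farDeg := by
  induction A with
  | edge => exact le_rfl
  | ser A B ihA ihB => exact ihB
  | par A B ihA ihB => exact ihA.trans (Nat.le_add_right _ _)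

theorem cubic_kind (B : Net) : B.Cubic → B.nearDeg ≤ 2 → B.farDeg ≤ 2 →
    (B.odd = false → B.HasKind .even) ∧
    (B.odd = true → B.HasKind .one ∨ (B.HasKind .two ∧ B.nearDeg = 2)) := by
  induction B with
  | edge =>
    intro _ _ _
    exact ⟨fun h => Bool.noConfusion h, fun _ => .inl .edge⟩
  | ser A C ihA ihC =>
    intro hc h1 h2
    obtain ⟨cA, cC, h3, h4⟩ := hc
    have pA := A.farDeg_pos
    have pC := C.nearDeg_pos
    simp only [nearDeg, farDeg] at h1 h2
    have hA := ihA cA h1 (by omega)
    have hC := ihC cC (by omega) h2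
    cases A with
    | edge =>
      constructor
      · intro h
        have hC' : C.odd = true := by simpa [odd] using h
        rcases hC.2 hC' with h5 | ⟨h5, -⟩
        · exact .ser (.oneLeft _ rfl) .edge h5
        · exact .ser (.oneLeft _ rfl) .edge h5
      · intro h
        have hC' : C.odd = false := by simpa [odd] using h
        exact .inl (.ser (.right _) .edge (hC.1 hC'))
    | ser A1 A2 => exact absurd rfl (h4 A1 A2)
    | par A1 A2 =>
      have p1 := A1.nearDeg_pos
      have p2 := A2.nearDeg_pos
      have p3 := A1.farDeg_pos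
      have p4 := A2.farDeg_pos
      have h6 : (par A1 A2).nearDeg = 2 := by
        simp only [nearDeg] at h1 ⊢
        omega
      have h7 : C.nearDeg = 1 := by
        simp only [farDeg] at h3
        omega
      have hC1 : C.odd = true → C.HasKind .one := by
        intro h
        rcases hC.2 h with h5 | ⟨-, h5⟩
        · exact h5
        · omega
      cases hA1 : (par A1 A2).odd
      · have kA := hA.1 hA1
        constructor
        · intro h
          have hC' : C.odd = false := by
            simp only [odd] at h hA1
            simpa [hA1] using h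
          exact .ser (.left _) kA (hC.1 hC')
        · intro h
          have hC' : C.odd = true := by
            simp only [odd] at h hA1
            simpa [hA1] using h
          exact .inl (.ser (.left _) kA (hC1 hC'))
      · have kA := hA.2 hA1
        constructor
        · intro h
          have hC' : C.odd = true := by
            simp only [odd] at h hA1
            simpa [hA1] using h
          rcases kA with h5 | ⟨h5, -⟩
          · exact .ser (.oneRight _ rfl) h5 (hC1 hC')
          · exact .ser (.oneRight _ rfl) h5 (hC1 hC')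
        · intro h
          have hC' : C.odd = false := by
            simp only [odd] at h hA1
            simpa [hA1] using h
          rcases kA with h5 | ⟨h5, -⟩
          · exact .inl (.ser (.right _) h5 (hC.1 hC'))
          · exact .inr ⟨.ser (.right _) h5 (hC.1 hC'), h6⟩
  | par A C ihA ihC =>
    intro hc h1 h2
    obtain ⟨cA, cC, h3⟩ := hc
    have p1 := A.nearDeg_pos
    have p2 := C.nearDeg_pos
    have p3 := A.farDeg_pos
    have p4 := C.farDeg_pos
    simp only [nearDeg, farDeg] at h1 h2
    have hA := ihA cA (by omega) (by omega)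
    have hC := ihC cC (by omega) (by omega)
    constructor
    · intro h
      have h' : A.odd = false := h
      exact .par .even (hA.1 h') (hC.1 (h3 ▸ h'))
    · intro h
      have h' : A.odd = true := h
      refine .inr ⟨.par .one ?_ ?_, ?_⟩
      · rcases hA.2 h' with h5 | ⟨-, h5⟩
        · exact h5
        · omega
      · rcases hC.2 (h3 ▸ h') with h5 | ⟨-, h5⟩
        · exact h5
        · omega
      · simp only [nearDeg]
        omega

end Net

/-! ### Networks -/

section nets
variable {G : Type*} [Group G]

/-- The relations at a crossing. -/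
structure Good (δ : G → ZMod 3) {R : Type} (X : R → G) (c : Crossing R) : Prop where
  rel : X c.near * (X c.left)⁻¹ * X c.far * (X c.right)⁻¹ = 1
  cub : ∀ v f, (v = c.near ∨ v = c.far) → (f = c.left ∨ f = c.right) → (X v * (X f)⁻¹) ^ 3 = 1
  dfar : δ (X c.far) = -δ (X c.near)
  dleft : δ (X c.left) = 0
  dright : δ (X c.right) = 0

theorem kind_odd {A : Net} {k : Kind} (h : A.HasKind k) : A.odd = k.odd := by
  induction h with
  | edge => rfl
  | ser h hA hB ihA ihB =>
    simp only [Net.odd, ihA, ihB]
    cases h with
    | left k => simp [Kind.odd]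
    | right k => simp [Kind.odd]
    | oneLeft k hk => rw [hk]; rfl
    | oneRight k hk => rw [hk]; rfl
  | par h hA hB ihA ihB =>
    simp only [Net.odd, ihA]
    cases h <;> rfl

variable {δ : G → ZMod 3} (hδ : ∀ u v, δ (u * v) = δ u + δ v) {o : Pre δ}
include hδ

theorem net_nf {A : Net} {k : Kind} (h : A.HasKind k) : ∀ {R : Type} (X : R → G) (P Q f g : R)
    (x : A.Inner → R), (∀ c ∈ A.crossings P Q f g x, Good δ X c) →
    NF o k (X P) (X Q) (X f) (X g) := by
  induction h with
  | edge =>
    intro R X P Q f g x hc
    have h := hc _ rfl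
    exact NF.edge hδ h.rel (h.cub _ _ (.inl rfl) (.inl rfl)) (h.cub _ _ (.inl rfl) (.inr rfl))
      (h.cub _ _ (.inr rfl) (.inl rfl)) (h.cub _ _ (.inr rfl) (.inr rfl)) h.dfar h.dleft h.dright
  | ser h hA hB ihA ihB =>
    intro R X P Q f g x hc
    exact NF.ser hδ h (ihA X _ _ _ _ _ fun c hc' => hc c (.inl hc'))
      (ihB X _ _ _ _ _ fun c hc' => hc c (.inr hc'))
  | par h hA hB ihA ihB =>
    intro R X P Q f g x hc
    exact NF.par hδ h (ihA X _ _ _ _ _ fun c hc' => hc c (.inl hc'))
      (ihB X _ _ _ _ _ fun c hc' => hc c (.inr hc'))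

/-- vertices next to each other in an even network -/
theorem far_even {P Q f g κ : G} {s : ℤ} (N : NF o .even P Q f g) (hf : Eqv o f 1)
    (hg : Eqv o g 1) (hP : Eqv o P (κ ^ s)) : Eqv o Q (κ ^ s) :=
  (N.vE hδ (hf.trans hg.symm)).symm.trans hP

theorem near_even {P Q f g κ : G} {s : ℤ} (N : NF o .even P Q f g) (hf : Eqv o f 1)
    (hg : Eqv o g 1) (hQ : Eqv o Q (κ ^ s)) : Eqv o P (κ ^ s) :=
  (N.vE hδ (hf.trans hg.symm)).trans hQ

theorem far_one {P Q f g κ : G} {s : ℤ} (N : NF o .one P Q f g) (hf : Eqv o f 1)
    (hg : Eqv o g 1) (hP : Eqv o P (κ ^ s)) : Eqv o Q (κ ^ (-s)) := by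
  have h1 := N.vO hδ (hf.trans hg.symm)
  have h2 : Eqv o (P * f⁻¹) (κ ^ s * 1⁻¹) := hP.mul hδ (hf.inv hδ)
  have h3 : Eqv o (g * Q⁻¹) (1 * Q⁻¹) := hg.mul hδ (Eqv.refl _)
  have h4 := ((h2.symm.trans h1).trans h3).inv hδ
  simpa using h4.symm

theorem near_one {P Q f g κ : G} {s : ℤ} (N : NF o .one P Q f g) (hf : Eqv o f 1)
    (hg : Eqv o g 1) (hQ : Eqv o Q (κ ^ s)) : Eqv o P (κ ^ (-s)) :=
  far_one hδ N.symm hg hf hQ

theorem right_even {P Q f g κ : G} {s : ℤ} (N : NF o .even P Q f g) (hf : Eqv o f 1)
    (hP : Eqv o P (κ ^ s)) (hQ : Eqv o Q (κ ^ s)) : Eqv o g 1 :=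
  (N.fE hδ (hP.trans hQ.symm)).symm.trans hf

theorem right_one {P Q f g κ : G} {s : ℤ} (N : NF o .one P Q f g) (hf : Eqv o f 1)
    (hP : Eqv o P (κ ^ s)) (hQ : Eqv o Q (κ ^ (-s))) : Eqv o g 1 := by
  have h1 : Eqv o (P * f⁻¹) (κ ^ s * 1⁻¹) := hP.mul hδ (hf.inv hδ)
  have h2 : Eqv o (f * Q⁻¹) (1 * (κ ^ (-s))⁻¹) := hf.mul hδ (hQ.inv hδ)
  have h3 : Eqv o (P * f⁻¹) (f * Q⁻¹) := by
    refine h1.trans (Eqv.trans ?_ h2.symm)
    rw [show κ ^ s * 1⁻¹ = 1 * (κ ^ (-s))⁻¹ by simp]
    exact Eqv.refl _
  exact (N.fO hδ h3).symm.trans hf

theorem left_one {P Q f g κ : G} {s : ℤ} (N : NF o .one P Q f g) (hg : Eqv o g 1)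
    (hP : Eqv o P (κ ^ s)) (hQ : Eqv o Q (κ ^ (-s))) : Eqv o f 1 := by
  refine right_one hδ (s := -s) (κ := κ) N.symm hg hQ ?_
  rwa [neg_neg]

/-- If the terminals and the outer faces of a network act like powers of `κ`, then so do all other
regions. -/
theorem net_flat {A : Net} {k : Kind} (h : A.HasKind k) (κ : G) : ∀ {R : Type} (X : R → G)
    (P Q f g : R) (x : A.Inner → R), (∀ c ∈ A.crossings P Q f g x, Good δ X c) → ∀ s : ℤ,
    Eqv o (X f) 1 → Eqv o (X g) 1 → Eqv o (X P) (κ ^ s) → Eqv o (X Q) (κ ^ Net.turn k.odd s) →
    ∀ r, Eqv o (X (x r)) (κ ^ A.colour s r) := by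
  induction h with
  | edge => intro R X P Q f g x hc s hf hg hP hQ r; exact r.elim
  | @ser A B i j k h hA hB ihA ihB =>
    intro R X P Q f g x hc s hf hg hP hQ
    have cA : ∀ c ∈ A.crossings P (x none) f g (fun r => x (some (.inl r))), Good δ X c :=
      fun c hc' => hc c (.inl hc')
    have cB : ∀ c ∈ B.crossings (x none) Q f g (fun r => x (some (.inr r))), Good δ X c :=
      fun c hc' => hc c (.inr hc')
    have NA : NF o i (X P) (X (x none)) (X f) (X g) := net_nf hδ hA X _ _ _ _ _ cA
    have NB : NF o j (X (x none)) (X Q) (X f) (X g) := net_nf hδ hB X _ _ _ _ _ cB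
    have hm : Eqv o (X (x none)) (κ ^ Net.turn i.odd s) := by
      cases h with
      | left k => exact far_even hδ NA hf hg hP
      | right k => exact near_even hδ NB hf hg hQ
      | oneLeft k hk => exact far_one hδ NA hf hg hP
      | oneRight k hk =>
        rw [hk]
        exact near_one hδ NB hf hg hQ
    have hQ' : Eqv o (X Q) (κ ^ Net.turn j.odd (Net.turn i.odd s)) := by
      have e : Net.turn j.odd (Net.turn i.odd s) = Net.turn k.odd s := by
        cases h with
        | left k => rfl
        | right k => rfl
        | oneLeft k hk => rw [hk]; exact neg_neg s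
        | oneRight k hk => rw [hk]; exact neg_neg s
      rw [e]; exact hQ
    have eA := kind_odd hA
    intro r
    match r with
    | none =>
      show Eqv o (X (x none)) (κ ^ Net.turn A.odd s)
      rw [eA]; exact hm
    | some (.inl r) => exact ihA X _ _ _ _ _ cA s hf hg hP hm r
    | some (.inr r) =>
      show Eqv o (X (x (some (.inr r)))) (κ ^ B.colour (Net.turn A.odd s) r)
      rw [eA]
      exact ihB X _ _ _ _ _ cB _ hf hg hm hQ' r
  | @par A B i j k h hA hB ihA ihB =>
    intro R X P Q f g x hc s hf hg hP hQ
    have cA : ∀ c ∈ A.crossings P Q f (x none) (fun r => x (some (.inl r))), Good δ X c :=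
      fun c hc' => hc c (.inl hc')
    have cB : ∀ c ∈ B.crossings P Q (x none) g (fun r => x (some (.inr r))), Good δ X c :=
      fun c hc' => hc c (.inr hc')
    have NA : NF o i (X P) (X Q) (X f) (X (x none)) := net_nf hδ hA X _ _ _ _ _ cA
    have NB : NF o j (X P) (X Q) (X (x none)) (X g) := net_nf hδ hB X _ _ _ _ _ cB
    have hm : Eqv o (X (x none)) 1 := by
      cases h with
      | even => exact right_even hδ NA hf hP hQ
      | one => exact right_one hδ NA hf hP hQ
      | left => exact right_one hδ NA hf hP hQ
      | right => exact left_one hδ NB hg hP hQ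
    have ei : i.odd = k.odd := by cases h <;> rfl
    have ej : j.odd = k.odd := by cases h <;> rfl
    intro r
    match r with
    | none =>
      show Eqv o (X (x none)) (κ ^ (0 : ℤ))
      rw [zpow_zero]; exact hm
    | some (.inl r) => exact ihA X _ _ _ _ _ cA s hf hm hP (ei ▸ hQ) r
    | some (.inr r) => exact ihB X _ _ _ _ _ cB s hm hg hP (ej ▸ hQ) r

end nets

/-- Every edge of a network joins vertices of opposite colours and has faces on both sides. -/
theorem net_bip {A : Net} {k : Kind} (h : A.HasKind k) : ∀ {R : Type} (col : R → ℤ) (P Q f g : R)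
    (x : A.Inner → R), col Q = Net.turn k.odd (col P) → col f = 0 → col g = 0 →
    (∀ r, col (x r) = A.colour (col P) r) → ∀ c ∈ A.crossings P Q f g x,
    col c.far = -col c.near ∧ col c.left = 0 ∧ col c.right = 0 := by
  induction h with
  | edge =>
    intro R col P Q f g x hQ hf hg hx c hc
    obtain rfl : c = ⟨P, f, Q, g⟩ := hc
    exact ⟨hQ, hf, hg⟩
  | @ser A B i j k h hA hB ihA ihB =>
    intro R col P Q f g x hQ hf hg hx
    have hm : col (x none) = Net.turn i.odd (col P) := by
      rw [← kind_odd hA]; exact hx none
    rintro c (hc | hc)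
    · exact ihA col _ _ _ _ _ hm hf hg (fun r => hx (some (.inl r))) c hc
    · refine ihB col _ _ _ _ _ ?_ hf hg (fun r => ?_) c hc
      · rw [hQ, hm]
        cases h with
        | left k => rfl
        | right k => rfl
        | oneLeft k hk => rw [hk]; exact (neg_neg _).symm
        | oneRight k hk => rw [hk]; exact (neg_neg _).symm
      · rw [hm, ← kind_odd hA]; exact hx (some (.inr r))
  | @par A B i j k h hA hB ihA ihB =>
    intro R col P Q f g x hQ hf hg hx
    have hm : col (x none) = 0 := hx none
    have ei : i.odd = k.odd := by cases h <;> rfl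
    have ej : j.odd = k.odd := by cases h <;> rfl
    rintro c (hc | hc)
    · exact ihA col _ _ _ _ _ (ei ▸ hQ) hf hm (fun r => hx (some (.inl r))) c hc
    · exact ihB col _ _ _ _ _ (ej ▸ hQ) hm hg (fun r => hx (some (.inr r))) c hc

/-! ### Orders -/

/-- `G` has no nontrivial homomorphism to a left-orderable group; in particular it is not
left-orderable. -/
theorem not_lo {G : Type} [Group G]
    (h : ∀ (H : Type) [Group H], LeftOrderable H → ∀ f : G →* H, ∀ g, f g = 1) :
    ¬ LeftOrderable G := by
  intro hG
  obtain ⟨a, b, hab⟩ := hG.1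
  have key := h G hG (MonoidHom.id _)
  exact hab ((key a).trans (key b).symm)

theorem lo_order {H : Type*} [Group H] (hH : LeftOrderable H) :
    ∃ _ : LinearOrder H, ∀ a b c : H, a ≤ b ↔ c * a ≤ c * b := by
  classical
  obtain ⟨_, lt, hlt, hinv⟩ := hH
  refine ⟨linearOrderOfSTO lt, ?_⟩
  intro a b c
  show (a = b ∨ lt a b) ↔ (c * a = c * b ∨ lt (c * a) (c * b))
  rw [mul_right_inj, ← hinv]

section order
variable {G H : Type*} [Group G] [Group H] [LinearOrder H]

/-- The values of the quotients `u v⁻¹` of elements of the same degree. -/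
noncomputable def quo (δ : G →* Multiplicative (ZMod 3)) (φ : δ.ker →* H) (u v : G)
    (h : δ u = δ v) : H :=
  φ ⟨u * v⁻¹, by rw [MonoidHom.mem_ker, map_mul, map_inv, h, mul_inv_cancel]⟩

/-- The preorder on `G` that comes from a homomorphism of the kernel of the degree to a
left-ordered group. -/
noncomputable def preOf (hH : ∀ a b c : H, a ≤ b ↔ c * a ≤ c * b)
    (δ : G →* Multiplicative (ZMod 3)) (φ : δ.ker →* H) :
    Pre (fun g : G => Multiplicative.toAdd (δ g)) where
  le u v := (∃ h : δ u = δ v, quo δ φ u v h ≤ 1) ∨
    (Multiplicative.toAdd (δ u)).val < (Multiplicative.toAdd (δ v)).val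
  total u v := by
    rcases lt_trichotomy (Multiplicative.toAdd (δ u)).val (Multiplicative.toAdd (δ v)).val with
      h | h | h
    · exact .inl (.inr h)
    · have h1 : δ u = δ v := Multiplicative.toAdd.injective (ZMod.val_injective 3 h)
      rcases le_total (quo δ φ u v h1) 1 with h2 | h2
      · exact .inl (.inl ⟨h1, h2⟩)
      · refine .inr (.inl ⟨h1.symm, ?_⟩)
        have h3 := (hH _ _ (quo δ φ v u h1.symm)).1 h2
        have h4 : quo δ φ v u h1.symm * quo δ φ u v h1 = 1 := by
          unfold quo
          rw [← map_mul, ← map_one φ]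
          congr 1
          ext
          simp
        rwa [h4, mul_one] at h3
    · exact .inr (.inr h)
  trans := by
    rintro u v w (⟨h1, h2⟩ | h1) (⟨h3, h4⟩ | h3)
    · refine .inl ⟨h1.trans h3, ?_⟩
      have h5 : quo δ φ u w (h1.trans h3) = quo δ φ u v h1 * quo δ φ v w h3 := by
        unfold quo
        rw [← map_mul]
        congr 1
        ext
        simp
      rw [h5]
      have h6 := (hH _ _ (quo δ φ u v h1)).1 h4
      rw [mul_one] at h6
      exact h6.trans h2
    · rw [← h1] at h3; exact .inr h3
    · rw [h3] at h1; exact .inr h1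
    · exact .inr (h1.trans h3)
  mul := by
    rintro u v w hd (⟨h1, h2⟩ | h1)
    · refine .inl ⟨by rw [map_mul, map_mul, h1], ?_⟩
      have h5 : quo δ φ (u * w) (v * w) (by rw [map_mul, map_mul, h1]) = quo δ φ u v h1 := by
        unfold quo
        congr 1
        ext
        simp
      rw [h5]; exact h2
    · exact absurd h1 (by rw [show Multiplicative.toAdd (δ u) = Multiplicative.toAdd (δ v) from hd]; exact lt_irrefl _)

theorem pre_trivial (hH : ∀ a b c : H, a ≤ b ↔ c * a ≤ c * b)
    (δ : G →* Multiplicative (ZMod 3)) (φ : δ.ker →* H) (g : δ.ker)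
    (h : Eqv (preOf hH δ φ) (g : G) 1) : φ g = 1 := by
  have h1 := h.le 1
  have h2 := h.ge 1
  rw [one_mul, one_mul] at h1 h2
  have e : δ (g : G) = δ 1 := by rw [map_one]; exact g.2
  have e1 : Multiplicative.toAdd (δ (g : G)) = Multiplicative.toAdd (δ 1) := by rw [e]
  have h3 : quo δ φ g 1 e ≤ 1 := by
    rcases h1 with ⟨h3, h4⟩ | h3
    · exact h4
    · rw [e1] at h3; exact absurd h3 (lt_irrefl _)
  have h4 : quo δ φ 1 g e.symm ≤ 1 := by
    rcases h2 with ⟨h3, h4⟩ | h3
    · exact h4
    · rw [e1] at h3; exact absurd h3 (lt_irrefl _)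
  have h5 : quo δ φ g 1 e = φ g := by
    unfold quo; congr 1; ext; simp
  have h6 : quo δ φ 1 g e.symm = (φ g)⁻¹ := by
    unfold quo; rw [← map_inv]; congr 1; ext; simp
  rw [h5] at h3
  rw [h6] at h4
  refine le_antisymm h3 ?_
  have h7 := (hH _ _ (φ g)).1 h4
  rwa [mul_inv_cancel, mul_one] at h7

end order

/-! ### Closed networks -/

theorem closing_odd {m : ℕ} {k : Fin (m + 1) → Kind} (hk : Closing m k) (i : Fin (m + 1)) :
    (k i).odd = (k 0).odd := by
  cases hk <;> fin_cases i <;> rfl

section group
variable {G : Type*} [Group G] {δ : G → ZMod 3} (hδ : ∀ u v, δ (u * v) = δ u + δ v) {o : Pre δ}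
include hδ

theorem closed_nf {m : ℕ} {k : Fin (m + 1) → Kind} (N : Fin (m + 1) → Net)
    (hN : ∀ i, (N i).HasKind (k i)) (X : Region N → G) (hX : ∀ c ∈ crossings N, Good δ X c)
    (i : Fin (m + 1)) :
    NF o (k i) (X (vP N)) (X (vQ N)) (X (face N i)) (X (face N (i + 1))) :=
  net_nf hδ (hN i) X _ _ _ _ (inner N i) fun c hc => hX c ⟨i, hc⟩

/-- The faces around the vertices `P` and `Q`. -/
theorem closed_face {m : ℕ} {k : Fin (m + 1) → Kind} (hk : Closing m k) (N : Fin (m + 1) → Net)
    (hN : ∀ i, (N i).HasKind (k i)) (X : Region N → G) (hX : ∀ c ∈ crossings N, Good δ X c)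
    (h0 : X (face N 0) = 1) (i : Fin (m + 1)) : Eqv o (X (face N i)) 1 := by
  have nf := closed_nf hδ (o := o) N hN X hX
  rw [← h0]
  cases hk with
  | even =>
    have h := ring_EE hδ (nf 0) (nf 1)
    fin_cases i
    exacts [Eqv.refl _, h.symm]
  | one =>
    have h := ring_AA hδ (nf 0) (nf 1)
    fin_cases i
    exacts [Eqv.refl _, h.symm]
  | two =>
    have h := ring_AB hδ (nf 0) (nf 1)
    fin_cases i
    exacts [Eqv.refl _, h.symm]
  | three =>
    have h := ring_AC hδ (nf 0) (nf 1)
    fin_cases i
    exacts [Eqv.refl _, h.symm]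
  | five =>
    have h1 := ring_A5 hδ (nf 0) (nf 1) (nf 2) (nf 3) (nf 4)
    have h2 := ring_A5 hδ (nf 1) (nf 2) (nf 3) (nf 4) (nf 0)
    have h3 := ring_A5 hδ (nf 2) (nf 3) (nf 4) (nf 0) (nf 1)
    have h4 := ring_A5 hδ (nf 3) (nf 4) (nf 0) (nf 1) (nf 2)
    fin_cases i
    exacts [Eqv.refl _, h1.symm, (h1.trans h2).symm, (h1.trans (h2.trans h3)).symm,
      (h1.trans (h2.trans (h3.trans h4))).symm]

/-- All generators act like powers of the meridian of `P`. -/
theorem closed_flat {m : ℕ} {k : Fin (m + 1) → Kind} (hk : Closing m k) (N : Fin (m + 1) → Net)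
    (hN : ∀ i, (N i).HasKind (k i)) (X : Region N → G) (hX : ∀ c ∈ crossings N, Good δ X c)
    (h0 : X (face N 0) = 1) (r : Region N) : Eqv o (X r) (X (vP N) ^ colour N r) := by
  have nf := closed_nf hδ (o := o) N hN X hX
  have hf := closed_face hδ (o := o) hk N hN X hX h0
  have hP : Eqv o (X (vP N)) (X (vP N) ^ (1 : ℤ)) := by rw [zpow_one]; exact Eqv.refl _
  have hQ : Eqv o (X (vQ N)) (X (vP N) ^ Net.turn (k 0).odd 1) := by
    have n0 := nf 0
    have f0 := hf 0
    have f1 := hf (0 + 1)
    cases hk with
    | even => exact far_even hδ n0 f0 f1 hP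
    | one => exact far_one hδ n0 f0 f1 hP
    | two => exact far_one hδ n0 f0 f1 hP
    | three => exact far_one hδ n0 f0 f1 hP
    | five => exact far_one hδ n0 f0 f1 hP
  match r with
  | .inl (.inl false) => exact hP
  | .inl (.inl true) =>
    show Eqv o (X (vQ N)) (X (vP N) ^ Net.turn (N 0).odd 1)
    rw [kind_odd (hN 0)]; exact hQ
  | .inl (.inr i) =>
    show Eqv o (X (face N i)) (X (vP N) ^ (0 : ℤ))
    rw [zpow_zero]; exact hf i
  | .inr ⟨i, r⟩ =>
    refine net_flat hδ (hN i) (X (vP N)) X _ _ _ _ (inner N i) (fun c hc => hX c ⟨i, hc⟩) 1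
      (hf i) (hf (i + 1)) hP ?_ r
    rw [closing_odd hk i]; exact hQ

end group

theorem closed_bip {m : ℕ} {k : Fin (m + 1) → Kind} (hk : Closing m k) (N : Fin (m + 1) → Net)
    (hN : ∀ i, (N i).HasKind (k i)) (c : Crossing (Region N)) (hc : c ∈ crossings N) :
    colour N c.far = -colour N c.near ∧ colour N c.left = 0 ∧ colour N c.right = 0 := by
  obtain ⟨i, hc⟩ := hc
  refine net_bip (hN i) (colour N) _ _ _ _ (inner N i) ?_ rfl rfl (fun r => rfl) c hc
  show Net.turn (N 0).odd 1 = Net.turn (k i).odd 1
  rw [kind_odd (hN 0), closing_odd hk i]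

theorem mul_three (x : Multiplicative (ZMod 3)) : x ^ 3 = 1 := by
  revert x; decide

theorem degree_rel {m : ℕ} {k : Fin (m + 1) → Kind} (hk : Closing m k) (N : Fin (m + 1) → Net)
    (hN : ∀ i, (N i).HasKind (k i)) : ∀ w ∈ relators N ∪ cubes N,
    FreeGroup.lift (fun r => Multiplicative.ofAdd ((colour N r : ℤ) : ZMod 3)) w = 1 := by
  rintro w ((⟨c, hc, rfl⟩ | rfl) | ⟨c, hc, v, f, -, -, rfl⟩)
  · obtain ⟨h1, h2, h3⟩ := closed_bip hk N hN c hc
    simp only [map_mul, map_inv, FreeGroup.lift_apply_of, h1, h2, h3]
    rw [← ofAdd_neg, ← ofAdd_add, ← ofAdd_add, ← ofAdd_add]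
    simp
  · simp only [FreeGroup.lift_apply_of]
    rfl
  · rw [map_pow]; exact mul_three _

theorem noOrders {m : ℕ} {k : Fin (m + 1) → Kind} (hk : Closing m k) (N : Fin (m + 1) → Net)
    (hN : ∀ i, (N i).HasKind (k i)) : NoOrders N := by
  have hδ0 : ∀ r, PresentedGroup.toGroup (degree_rel hk N hN) (PresentedGroup.of r) =
      Multiplicative.ofAdd ((colour N r : ℤ) : ZMod 3) := fun r => PresentedGroup.toGroup.of _
  refine ⟨PresentedGroup.toGroup (degree_rel hk N hN), hδ0, ?_⟩
  generalize PresentedGroup.toGroup (degree_rel hk N hN) = δ at hδ0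
  suffices key : ∀ (H : Type) [Group H], LeftOrderable H → ∀ φ : δ.ker →* H, ∀ g, φ g = 1 from
    ⟨not_lo key, key⟩
  intro H _ hH φ g
  obtain ⟨_, hle⟩ := lo_order hH
  refine pre_trivial hle δ φ g ?_
  have hδ : ∀ u v : OrbifoldGroup N, Multiplicative.toAdd (δ (u * v)) =
      Multiplicative.toAdd (δ u) + Multiplicative.toAdd (δ v) := fun u v => by
    rw [map_mul, toAdd_mul]
  generalize preOf hle δ φ = o
  -- the generators
  have hX : ∀ c ∈ crossings N, Good (fun g => Multiplicative.toAdd (δ g))
      (fun r => (PresentedGroup.of r : OrbifoldGroup N)) c := by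
    intro c hc
    obtain ⟨h1, h2, h3⟩ := closed_bip hk N hN c hc
    refine ⟨?_, fun v f hv hf => ?_, ?_, ?_, ?_⟩
    · exact PresentedGroup.one_of_mem (Set.mem_union_left _ (Or.inl ⟨c, hc, rfl⟩))
    · exact PresentedGroup.one_of_mem (Set.mem_union_right _ ⟨c, hc, v, f, hv, hf, rfl⟩)
    · simp only [hδ0, h1, toAdd_ofAdd, Int.cast_neg]
    · simp only [hδ0, h2, toAdd_ofAdd, Int.cast_zero]
    · simp only [hδ0, h3, toAdd_ofAdd, Int.cast_zero]
  have h0 : (PresentedGroup.of (face N 0) : OrbifoldGroup N) = 1 :=
    PresentedGroup.one_of_mem (Set.mem_union_left _ (Or.inr rfl))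
  have flat := closed_flat hδ (o := o) hk N hN _ hX h0
  set κ : OrbifoldGroup N := PresentedGroup.of (vP N) with hκ
  have hκ3 : κ ^ 3 = 1 := by
    have h := (closed_nf hδ (o := o) N hN _ hX 0).cPf
    simpa only [h0, inv_one, mul_one] using h
  have hκδ : δ κ = Multiplicative.ofAdd 1 := by rw [hκ, hδ0]; rfl
  have all : ∀ u : OrbifoldGroup N, ∃ n : ℤ, Eqv o u (κ ^ n) := by
    intro u
    have hu : u ∈ Subgroup.closure (Set.range (PresentedGroup.of : _ → OrbifoldGroup N)) := by
      rw [PresentedGroup.closure_range_of]; trivial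
    induction hu using Subgroup.closure_induction with
    | mem x hx =>
      obtain ⟨r, rfl⟩ := hx
      exact ⟨_, flat r⟩
    | one => exact ⟨0, by rw [zpow_zero]; exact Eqv.refl _⟩
    | mul x y _ _ hx hy =>
      obtain ⟨n, hn⟩ := hx
      obtain ⟨n', hn'⟩ := hy
      exact ⟨n + n', by rw [zpow_add]; exact hn.mul hδ hn'⟩
    | inv x _ hx =>
      obtain ⟨n, hn⟩ := hx
      exact ⟨-n, by rw [zpow_neg]; exact hn.inv hδ⟩
  obtain ⟨n, hn⟩ := all g
  have hd : Multiplicative.toAdd (δ (g : OrbifoldGroup N)) = Multiplicative.toAdd (δ (κ ^ n)) :=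
    hn.deg
  rw [show δ (g : OrbifoldGroup N) = 1 from g.2, map_zpow, hκδ, toAdd_zpow, toAdd_one,
    toAdd_ofAdd, zsmul_one] at hd
  have hn3 : (3 : ℤ) ∣ n := (ZMod.intCast_zmod_eq_zero_iff_dvd n 3).1 hd.symm
  obtain ⟨l, rfl⟩ := hn3
  rw [zpow_mul, show κ ^ (3 : ℤ) = 1 from by exact_mod_cast hκ3, one_zpow] at hn
  exact hn

/-- Let the graph consist of networks `N 0, …, N m` between two vertices `P` and `Q`, of the kinds
`even, even` or `one, one` or `one, two` or `one, three` or `one, one, one, one, one`.  Then every
homomorphism from the fundamental group of the threefold cyclic branched cover of the link to a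
left-orderable group is trivial, and this fundamental group is not left-orderable.  In particular
this holds for all 2-connected series-parallel plane bipartite graphs with at most three edges at
each vertex: they consist of an edge and a network `B` with odd paths and at most two edges at
each terminal. -/
theorem result :
    (∀ (m : ℕ) (k : Fin (m + 1) → Kind), Closing m k →
      ∀ N : Fin (m + 1) → Net, (∀ i, (N i).HasKind (k i)) → NoOrders N) ∧
    (∀ B : Net, B.Cubic → B.odd = true → B.nearDeg ≤ 2 → B.farDeg ≤ 2 →
      NoOrders (m := 1) ![Net.edge, B]) := by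
  refine ⟨fun m k hk N hN => noOrders hk N hN, fun B hB h1 h2 h3 => ?_⟩
  rcases (B.cubic_kind hB h2 h3).2 h1 with h | ⟨h, -⟩
  · refine noOrders Closing.one _ fun i => ?_
    fin_cases i
    exacts [.edge, h]
  · refine noOrders Closing.two _ fun i => ?_
    fin_cases i
    exacts [.edge, h]

end Pool.Agent.Results.MP_3d425c_gt.ThreefoldArborescentCovers
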