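import Pool.Agent.K7.H4.LS.Tree

set_option autoImplicit false

/-!
# Manifolds glued from the exteriors of the crossings of alternating diagrams

## The pieces

Let `D` be a connected alternating link diagram. Remove a small ball around EVERY crossing, and let
`M_D` be the double branched cover of the rest; it has one boundary torus for each crossing. For a
diagram whose checkerboard polyhedron is a right-angled ideal hyperbolic polyhedron (a basic
polyhedron, such as the octahedron for the Borromean diagram) `M_D` is the union of four copies of
this polyhedron, hence hyperbolic with as many cusps as there are crossings. The fundamental group of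
`M_D` is generated by the regions of the diagram (two neighbouring regions are `1`), with one
relation for each crossing: `u = b₂⁻¹ b₁` and `v = w₁⁻¹ w₂` commute, where `w₁, b₁, w₂, b₂` are the
corners of the crossing (`Pool.Agent.K7.H4.LS.net`). Putting the rational tangle `p / q` in the place
of the crossing is the filling `u ^ q = v ^ p`.

`Pool.Agent.K7.H4.LS.enc` is the same for alternating diagrams with an encircled triple of strands
(the manifolds `Y` of the starting result `EncircledAlternatingLinks` for MP_9ae2f3_gt, without the
curves of the crossings); the other pieces are those of the starting result `GluedKnotExteriors` for
MP_9ae2f3_gt: the exterior of the Borromean rings, products of the circle and spheres with holes,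
and exteriors of knots with Nie's property (D).

## The theorem

A closed manifold is built from a piece by gluing to each boundary torus either a solid torus, in
the case of a crossing the one of a positive rational tangle `p / q`, or a manifold with one
boundary torus of the same kind (a tree of pieces). The condition on the gluing maps: the marked
basis `x, e` of the piece is `X ^ A E ^ B`, `(X ^ C E ^ D)⁻¹` with positive `A, B, C, D`, where
`X, E` is the marked basis of the manifold that is glued in. The marked basis is chosen such that the
interval of slopes `x ^ a e ^ b = 1`, `a, b ≥ 0`, consists of L-space slopes, and the condition means
that every slope of the torus is in the interior of this interval for one of the two sides. Then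
every homomorphism from the fundamental group to a left-orderable group is trivial.

The proof. In an action on a complete linear order the manifold glued to the crossing `c` makes `u`
and `v` move every point in the same direction, as a positive rational tangle does, and a point
fixed by `u` is fixed by the whole manifold. At each point of the order the black regions satisfy
a maximum principle, with one exceptional crossing, the one through which the tree continues; then
the white regions do so (`Pool.Agent.K7.H4.LS.NetOK`).
-/

namespace Pool.Agent.Results.MP_3d425c_gt.TreesOfAlternatingDiagrams

open Pool.Agent.K7.H4.LS

/-- (1) Let `G` be the fundamental group of a closed manifold that is a piece with solid tori and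
manifolds of the class `Tree` glued to all its boundary tori. Then every homomorphism from `G` to
a left-orderable group is trivial, and `G` is not left-orderable. (2) The same if the exterior of a
knot with property (D) is glued to a manifold of the class `Tree`. -/
theorem result :
    (∀ (K : Block) (G : Type) [Group G], IsPiece K → Filled K G →
      NoOrders G) ∧
    (∀ (G₁ N G : Type) [Group G₁] [Group N] [Group G] (j₁ : G₁ →* G) (j₂ : N →* G)
      (μ l : G₁) (x e : N) (n : ℤ) (A B C D : ℕ),
      PropertyD G₁ μ l n → Tree N x e → j₁.range ⊔ j₂.range = ⊤ →
        1 ≤ A → 1 ≤ B → 1 ≤ C → 1 ≤ D → j₁ μ = j₂ (x ^ A * e ^ B) →
          j₁ (μ ^ n * l) = j₂ (x ^ C * e ^ D)⁻¹ → NoOrders G) :=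
  ⟨fun _ _ _ hK F => noOrders fun _ _ ρ g p => F.act_trivial hK ρ g p,
    fun _ _ _ _ _ _ _ _ _ _ _ _ _ _ _ _ _ h₁ hN hgen hA hB hC hD g1 g2 =>
      noOrders fun _ _ ρ g p => tree_knot_trivial h₁ hN hgen hA hB hC hD g1 g2 ρ g p⟩

end Pool.Agent.Results.MP_3d425c_gt.TreesOfAlternatingDiagrams
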