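import Pool.Agent.K7.H38.TW.Nest

set_option autoImplicit false

/-!
# Closed chains `T₁ w T₂ w⁻¹ Δ^{±2}` of two tangles of opposite signs on three strands

Let `w` be a braid on three strands, let `Δ²` be the full twist of the three strands, and let `T₁`,
`T₂` be tangles between the strands 1 and 2, one positive and one negative: rational tangles `p / q`,
`p ≠ 0` (of any size; `1 / 0` counts as positive and as negative), or alternating tangles. Let `L` be
the closure of `T₁ w T₂ w⁻¹ Δ²` or of `T₁ w T₂ w⁻¹ Δ⁻²`.

The theorem: if `cross w ≠ 0` then every homomorphism from the fundamental group of the double branched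
cover of `L` to a left-orderable group is trivial; in particular this group is not left-orderable.

`cross w = N` is an entry of the matrix of `w`, it is zero if and only if `w` fixes the curve around
the strands 1, 2. If the tangles are `p / q > 0` and `- p' / q' < 0` then the first homology has order
`4 q q' + N² p p'`. It is additive under the surgery triangle; so these manifolds are L-spaces, and
in the same way those of alternating tangles (this is not part of the formal statement). The links
are in general not alternating. If the tangles are integral then `L` is a closed three-braid. If
both tangles have the same sign then the manifold can have infinite homology, and also L-spaces and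
manifolds that are not L-spaces occur. With `Δ⁰` instead of `Δ^{±2}` the theorem holds for tangles of
all signs (`KanenobuKnots`).

More generally the tangles can be replaced by *signed nests*. Let `X(w, e)`, `e = 0, 1, -1`, be the
double branched cover of the complement of the two balls in the closed chain `∘ w ∘ w⁻¹ Δ^{2 e}` with
two holes; it has two boundary tori, each with the elements `A` (the region between the strands 2 and
3) and `a` (the quotient of the regions between the strands 1 and 2 on the two sides of the hole). A
nest is a tangle, or `B ∪ X(w, e)` for a nest `B`, where the remaining boundary torus is parametrised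
by the elements `A' = A^x a^y`, `a' = A^z a^t`, `x t - y z = ±1` (`Nest.enc B w e x y z t`). Its sign
is the sign of `x z`; it is required that `cross w ≠ 0`, and if `e ≠ 0` that `x y` and `z t` have the
sign of `B`. So the theorem is about closed manifolds which are linear chains of manifolds
`X(w, e)`, where both ends are closed by double branched covers of tangles.

Idea of the proof. The braid group acts on the pairs of elements of a group; `Δ²` takes `(A, B)` to a
conjugate of `(A⁻¹, B⁻¹)`. Every braid has a normal form `σ₁^i p σ₁^j Δ^{2k}`, where `p` is a product
of factors `σ₁⁻¹` and `σ₂`. This reduces the statement to `w = p`. Let the group act by order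
automorphisms on an interval without global fixed points. The two states `(m, g)` and `(m, g v)`
before `p` are taken to `(l, a)` and to `Δ^{±2} (l, a u)`, that is `(l', ·)` with a conjugate `l'` of
`l⁻¹`. Here `m`, `v` belong to `T₁` and `l`, `u` to `T₂`. The commutator of a state does not change;
this gives relations `l' l = [m, g]` or `l l' = [m, g]`, where `l`, `l'` are positive words in `m`,
`g`, `v`; they imply that a fixed point of `m` and `v` is fixed by `g`. So `v`, and in the same way
`u`, has a constant sign. If `v` moves all points up and `l` moves no point down then `l < l'`,
but `l'` is a conjugate of `l⁻¹`: a contradiction. If `m` moves no point down and `u` moves all points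
down then, going backwards, `m < m'` for a conjugate `m'` of `m⁻¹`: a contradiction. If `T₁` is
positive and `T₂` is negative then one of these cases applies to the action or to its reversal.
-/

namespace Pool.Agent.Results.MP_3d425c_gt.TwistedDoubles

open Pool.Agent.Y479.LS Pool.Agent.K7.H39.TB
open Pool.Agent.K7.H38.KN hiding Nest OpenGrp holeIx bdA bda openPiece
open Pool.Agent.K7.H38.TW

/-- **Closed chains `B₁ w B₂ w⁻¹ Δ ^ (2 e)`, `e = 1` or `e = -1`, of nests of opposite signs.** -/
theorem result (B₁ B₂ : Nest) (w : List (Bool × ℤ)) (hw : cross w ≠ 0) (e : ℤ)
    (he : e = 1 ∨ e = -1) (ε : Bool) (h₁ : B₁.Sign ε) (h₂ : B₂.Sign (!ε)) :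
    (∀ (H : Type) [Group H], LeftOrderable H →
      ∀ (f : PChainGrp (twisted B₁.piece w B₂.piece e) →* H)
        (γ : PChainGrp (twisted B₁.piece w B₂.piece e)), f γ = 1) ∧
      ¬ LeftOrderable (PChainGrp (twisted B₁.piece w B₂.piece e)) :=
  have h := twisted_noLO hw he h₁ h₂
  ⟨h, h.not_leftOrderable⟩

/-- The case of two rational tangles `p / q ≥ 0` and `- p' / q' ≤ 0`. -/
theorem rational (p q p' q' : ℤ) (hp : 0 < p) (hq : 0 ≤ q) (hp' : 0 < p') (hq' : 0 ≤ q')
    (w : List (Bool × ℤ)) (hw : cross w ≠ 0) (e : ℤ) (he : e = 1 ∨ e = -1) :
    ¬ LeftOrderable (PChainGrp (twisted (STang.rat p q).piece w (STang.rat (-p') q').piece e)) :=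
  (result (.tang (.rat p q)) (.tang (.rat (-p') q')) w hw e he true
    ⟨hp.ne', by simpa using mul_nonneg hp.le hq⟩
    ⟨neg_ne_zero.mpr hp'.ne', by simpa using mul_nonneg hp'.le hq'⟩).2

end Pool.Agent.Results.MP_3d425c_gt.TwistedDoubles
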